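import Pool.Agent.Helper68.QS.St3

/-!
# Project QD (MP_d112a4_gt), QS module CMX: exact composition formula
(adapted from the proof of helper66, Pool/Agent/Helper66/QCM/M_IF9.lean)
-/

set_option autoImplicit false

open MeasureTheory Set Filter Topology Complex
open scoped ContDiff ComplexConjugate ENNReal

namespace Pool.Agent.Helper36.QS

open Pool.Agent.Helper68.QS Pool.Agent.Helper68.QC

/-- the data of StCVM are data in the sense of `QD` -/
private theorem qd_of_cvm (k : ℝ) (hk0 : 0 ≤ k) (hk : k < 1) (κ : ℂ → ℂ) (hκ : Bel k κ) (w : ℂ ≃ₜ ℂ)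
    (a b : ℂ → ℂ) (hwd : WD univ w a b) (hb : ∀ z, b z = κ z * a z) (ha : Measurable a)
    (hcv : ∀ G : ℂ → ℝ≥0∞, Measurable G →
      ∫⁻ z, G (w z) * ENNReal.ofReal (‖a z‖ ^ 2 - ‖b z‖ ^ 2) = ∫⁻ z, G z) : QD k w a b := by
  have hbm : Measurable b := by
    have : b = fun z => κ z * a z := funext hb
    rw [this]
    exact hκ.meas.mul ha
  have hle : ∀ z, ‖b z‖ ≤ k * ‖a z‖ := by
    intro z
    rw [hb, norm_mul]
    exact mul_le_mul_of_nonneg_right (hκ.le z) (norm_nonneg _)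
  have hJ : ∀ z, 0 ≤ jc a b z := by
    intro z
    unfold jc
    have h1 := hle z
    have h2 := norm_nonneg (a z)
    have h3 := norm_nonneg (b z)
    have h4 : ‖b z‖ ≤ ‖a z‖ := h1.trans (by nlinarith)
    nlinarith
  have hJm : Measurable (jc a b) := by
    unfold jc
    exact (ha.norm.pow_const 2).sub (hbm.norm.pow_const 2)
  refine ⟨hwd, Eventually.of_forall hle, ?_⟩
  intro G hG hGc
  have hwm : Measurable w := w.continuous.measurable
  have hmap : Measure.map w ((volume : Measure ℂ).withDensity (fun z => ENNReal.ofReal (jc a b z))) = volume := by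
    ext s hs
    have hs' : MeasurableSet (w ⁻¹' s) := hwm hs
    rw [Measure.map_apply hwm hs, withDensity_apply _ hs']
    have h1 := hcv (s.indicator fun _ => 1) (measurable_const.indicator hs)
    rw [lintegral_indicator hs, setLIntegral_const, one_mul] at h1
    rw [← h1, ← lintegral_indicator hs']
    apply lintegral_congr
    intro z
    by_cases hz : w z ∈ s
    · rw [indicator_of_mem hz, indicator_of_mem (show z ∈ w ⁻¹' s from hz), one_mul]
      rfl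
    · rw [indicator_of_notMem hz, indicator_of_notMem (show z ∉ w ⁻¹' s from hz), zero_mul]
  have h2 : ∫ z, G z = ∫ z, G (w z) ∂((volume : Measure ℂ).withDensity
      (fun z => ENNReal.ofReal (jc a b z))) := by
    conv_lhs => rw [← hmap]
    exact integral_map hwm.aemeasurable hG.aestronglyMeasurable
  rw [h2, integral_withDensity_eq_integral_toReal_smul hJm.ennreal_ofReal
    (Eventually.of_forall fun z => ENNReal.ofReal_lt_top)]
  apply integral_congr_ae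
  apply Eventually.of_forall
  intro z
  show G (w z) * (jc a b z : ℂ) = (ENNReal.ofReal (jc a b z)).toReal • G (w z)
  rw [ENNReal.toReal_ofReal (hJ z), Complex.real_smul, mul_comm]

/-- the ratio is at most `2k/(1+k²)` -/
private theorem ratio (k : ℝ) (hk0 : 0 ≤ k) (hk : k < 1) (m c : ℂ) (hm : ‖m‖ ≤ k) (hc : ‖c‖ ≤ k) :
    ‖m - c‖ ≤ 2 * k / (1 + k ^ 2) * ‖1 - conj c * m‖ := by
  have hid : ‖1 - conj c * m‖ ^ 2 - ‖m - c‖ ^ 2 = (1 - ‖m‖ ^ 2) * (1 - ‖c‖ ^ 2) := by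
    simp only [Complex.sq_norm, Complex.normSq_apply, Complex.sub_re, Complex.sub_im,
      Complex.mul_re, Complex.mul_im, Complex.conj_re, Complex.conj_im, Complex.one_re,
      Complex.one_im]
    ring
  have hm0 := norm_nonneg m
  have hc0 := norm_nonneg c
  have hP : ‖1 - conj c * m‖ ≤ 1 + k ^ 2 := by
    have h1 : ‖1 - conj c * m‖ ≤ 1 + ‖c‖ * ‖m‖ := by
      refine (norm_sub_le _ _).trans ?_
      rw [norm_one, norm_mul, RCLike.norm_conj]
    have h2 : ‖c‖ * ‖m‖ ≤ k * k := mul_le_mul hc hm hm0 hk0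
    nlinarith
  have hP0 := norm_nonneg (1 - conj c * m)
  have hK : 0 < 1 + k ^ 2 := by positivity
  have hm2 : ‖m‖ ^ 2 ≤ k ^ 2 := pow_le_pow_left₀ hm0 hm 2
  have hc2 : ‖c‖ ^ 2 ≤ k ^ 2 := pow_le_pow_left₀ hc0 hc 2
  have hk2 : k ^ 2 < 1 := by nlinarith
  have hprod : (1 - k ^ 2) * (1 - k ^ 2) ≤ (1 - ‖m‖ ^ 2) * (1 - ‖c‖ ^ 2) :=
    mul_le_mul (by linarith) (by linarith) (by linarith) (by linarith)
  apply le_of_sq_le_sq _ (by positivity)
  rw [mul_pow, div_pow]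
  have hq : ((2 * k) ^ 2 / (1 + k ^ 2) ^ 2) = 1 - (1 - k ^ 2) ^ 2 / (1 + k ^ 2) ^ 2 := by
    field_simp
    ring
  rw [hq]
  have hPsq : ‖1 - conj c * m‖ ^ 2 ≤ (1 + k ^ 2) ^ 2 := pow_le_pow_left₀ hP0 hP 2
  have h3 : (1 - k ^ 2) ^ 2 / (1 + k ^ 2) ^ 2 * ‖1 - conj c * m‖ ^ 2 ≤ (1 - k ^ 2) ^ 2 := by
    rw [div_mul_eq_mul_div, div_le_iff₀ (by positivity)]
    exact mul_le_mul_of_nonneg_left hPsq (by positivity)
  nlinarith

theorem pCMX (hNQD : Pool.Agent.Helper68.QC.StNQD) (hCVM : Pool.Agent.Helper68.QC.StCVM)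
    (hNUL : Pool.Agent.Helper68.QC.StNUL) (hPSH : Pool.Agent.Helper68.QC.StPSH)
    (hUNI : Pool.Agent.Helper68.QC.StUNI) (hUNW : Pool.Agent.Helper68.QC.StUNW) :
    Pool.Agent.Helper68.QS.StCMX := by
  intro k hk μ κ hμ hκ a' ha'
  have hk0 : 0 ≤ k := (norm_nonneg _).trans (hμ.le 0)
  obtain ⟨δ, hδd⟩ : ∃ δ : ℝ, δ = 2 * k / (1 + k ^ 2) := ⟨_, rfl⟩
  have hK : 0 < 1 + k ^ 2 := by positivity
  have hδ : δ < 1 := by
    rw [hδd, div_lt_one hK]
    nlinarith [sq_nonneg (1 - k), mul_self_pos.2 (show (1 - k) ≠ 0 by linarith)]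
  have hδ0 : 0 ≤ δ := by rw [hδd]; positivity
  have h : ∀ z, ‖μ z - κ z‖ ≤ δ * ‖1 - conj (κ z) * μ z‖ := by
    intro z
    rw [hδd]
    exact ratio k hk0 hk _ _ (hμ.le z) (hκ.le z)
  have hX : ∀ z, 0 < ‖1 - conj (κ z) * μ z‖ := by
    intro z
    rw [norm_pos_iff]
    intro h0
    have h1 : conj (κ z) * μ z = 1 := by linear_combination -h0
    have h2 : ‖conj (κ z) * μ z‖ = 1 := by rw [h1, norm_one]
    rw [norm_mul, RCLike.norm_conj] at h2
    have h3 := hκ.le z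
    have h4 := hμ.le z
    have h5 : ‖κ z‖ * ‖μ z‖ ≤ k * k := mul_le_mul h3 h4 (norm_nonneg _) hk0
    nlinarith
  obtain ⟨a, b, hwd, hb, ham, hane, hcv⟩ := hCVM k hk κ hκ
  obtain ⟨c, d, hwd', hd, hcm, hcne, -⟩ := hCVM k hk μ hμ
  have haa : ∀ᵐ z : ℂ, a z = a' z := by
    have h1 := (hUNW univ (nq κ) (nq κ) a b a' (fun z => κ z * a' z) isOpen_univ
      (fun _ _ => rfl) hwd ha'.wd).1
    rwa [Measure.restrict_univ] at h1
  have hQD := qd_of_cvm k hk0 hk κ hκ (nq κ) a b hwd hb ham hcv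
  obtain ⟨-, -, hQQ, -⟩ := hNQD k hk κ hκ
  obtain ⟨C, D, hCm, hDm, hWD, hC, hD⟩ := hPSH k (nq κ) a b (nq μ) c d hk0 hk hQD hQQ hwd'
  have hJ : ∀ z, 0 < jc a b z := by
    intro z
    unfold jc
    rw [hb, norm_mul]
    have h1 : 0 < ‖a z‖ := norm_pos_iff.2 (hane z)
    have h2 := hκ.le z
    have h3 := norm_nonneg (κ z)
    have h4 : ‖κ z‖ ^ 2 < 1 := by nlinarith
    have h5 : 0 < ‖a z‖ ^ 2 := by positivity
    nlinarith
  have key : ∀ᵐ z : ℂ, C (nq κ z) ≠ 0 ∧ D (nq κ z) * (conj (a z) * (1 - conj (κ z) * μ z)) =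
      C (nq κ z) * (a z * (μ z - κ z)) := by
    filter_upwards [hC, hD] with z h1 h2
    have e1 : C (nq κ z) * (jc a b z : ℂ) = c z * conj (a z) * (1 - conj (κ z) * μ z) := by
      rw [h1, hd, hb, map_mul]
      ring
    have e2 : D (nq κ z) * (jc a b z : ℂ) = a z * c z * (μ z - κ z) := by
      rw [h2, hd, hb]
      ring
    have hJz := hJ z
    have n1 : ‖C (nq κ z)‖ * jc a b z = ‖c z‖ * ‖a z‖ * ‖1 - conj (κ z) * μ z‖ := by
      have := congrArg norm e1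
      rw [norm_mul, norm_mul, norm_mul, RCLike.norm_conj, Complex.norm_real, Real.norm_eq_abs,
        abs_of_pos hJz] at this
      exact this
    have hc0 : 0 < ‖c z‖ := norm_pos_iff.2 (hcne z)
    have ha0 : 0 < ‖a z‖ := norm_pos_iff.2 (hane z)
    refine ⟨?_, ?_⟩
    · intro h0
      rw [h0, norm_zero, zero_mul] at n1
      have := mul_pos (mul_pos hc0 ha0) (hX z)
      linarith
    · have hJc : (jc a b z : ℂ) ≠ 0 := Complex.ofReal_ne_zero.2 hJz.ne'
      apply mul_right_cancel₀ hJc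
      linear_combination (conj (a z) * (1 - conj (κ z) * μ z)) * e2 - (a z * (μ z - κ z)) * e1
  have key2 : ∀ᵐ z : ℂ, C (nq κ z) ≠ 0 ∧ ‖D (nq κ z)‖ ≤ δ * ‖C (nq κ z)‖ := by
    filter_upwards [key] with z hz
    refine ⟨hz.1, ?_⟩
    have ha0 : 0 < ‖a z‖ := norm_pos_iff.2 (hane z)
    have hn := congrArg norm hz.2
    rw [norm_mul, norm_mul, norm_mul, norm_mul, RCLike.norm_conj] at hn
    have hn2 : ‖D (nq κ z)‖ * ‖1 - conj (κ z) * μ z‖ = ‖C (nq κ z)‖ * ‖μ z - κ z‖ := by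
      apply mul_left_cancel₀ ha0.ne'
      linear_combination hn
    apply le_of_mul_le_mul_right _ (hX z)
    rw [hn2]
    have := mul_le_mul_of_nonneg_left (h z) (norm_nonneg (C (nq κ z)))
    linarith
  have key3 : ∀ᵐ ζ : ℂ, C ζ ≠ 0 ∧ ‖D ζ‖ ≤ δ * ‖C ζ‖ := by
    rw [ae_iff] at key2 ⊢
    have himg : {ζ : ℂ | ¬(C ζ ≠ 0 ∧ ‖D ζ‖ ≤ δ * ‖C ζ‖)} =
        nq κ '' {z : ℂ | ¬(C (nq κ z) ≠ 0 ∧ ‖D (nq κ z)‖ ≤ δ * ‖C (nq κ z)‖)} := by
      ext ζ
      constructor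
      · intro hζ
        refine ⟨(nq κ).symm ζ, ?_, (nq κ).apply_symm_apply ζ⟩
        rw [mem_ofPred_eq, (nq κ).apply_symm_apply]
        exact hζ
      · rintro ⟨z, hz, rfl⟩
        exact hz
    rw [himg]
    exact (hNUL k hk κ hκ _).2 key2
  classical
  let ν : ℂ → ℂ := fun ζ => if C ζ ≠ 0 ∧ ‖D ζ‖ ≤ δ * ‖C ζ‖ then D ζ / C ζ else 0
  have hνm : Measurable ν := by
    apply Measurable.ite _ (hDm.div hCm) measurable_const
    apply MeasurableSet.inter
    · exact (hCm (measurableSet_singleton 0)).compl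
    · exact measurableSet_le hDm.norm (measurable_const.mul hCm.norm)
  have hνle : ∀ ζ, ‖ν ζ‖ ≤ δ := by
    intro ζ
    by_cases hζ : C ζ ≠ 0 ∧ ‖D ζ‖ ≤ δ * ‖C ζ‖
    · have : ν ζ = D ζ / C ζ := if_pos hζ
      rw [this, norm_div, div_le_iff₀ (norm_pos_iff.2 hζ.1)]
      exact hζ.2
    · have : ν ζ = 0 := if_neg hζ
      rw [this, norm_zero]
      exact hδ0
  have hsol : Sol ν univ (fun ζ => nq μ ((nq κ).symm ζ)) := by
    refine ⟨C, D, hWD, ?_⟩
    rw [Measure.restrict_univ]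
    filter_upwards [key3] with ζ hζ
    have : ν ζ = D ζ / C ζ := if_pos hζ
    rw [this, div_mul_cancel₀ _ hζ.1]
  obtain ⟨hqκ, -, -, -⟩ := hNQD k hk κ hκ
  obtain ⟨hqμ, -, -, -⟩ := hNQD k hk μ hμ
  have hW : (nq κ).symm.trans (nq μ) = nq ν := by
    apply hUNI δ hδ ν ⟨hνm, hνle⟩ _ _ _ ∅ finite_empty
    · rw [compl_empty]
      exact hsol
    · show nq μ ((nq κ).symm 0) = 0
      have : (nq κ).symm 0 = 0 := by
        rw [Homeomorph.symm_apply_eq]
        exact hqκ.zero.symm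
      rw [this, hqμ.zero]
    · show nq μ ((nq κ).symm 1) = 1
      have : (nq κ).symm 1 = 1 := by
        rw [Homeomorph.symm_apply_eq]
        exact hqκ.one.symm
      rw [this, hqμ.one]
  refine ⟨δ, hδ, ν, ⟨hνm, hνle⟩, ?_, ?_⟩
  · intro z
    rw [← hW]
    show nq μ z = nq μ ((nq κ).symm (nq κ z))
    rw [(nq κ).symm_apply_apply]
  · filter_upwards [key, key2, haa] with z h1 h2 h3
    have : ν (nq κ z) = D (nq κ z) / C (nq κ z) := if_pos h2
    rw [this, ← h3, div_mul_eq_mul_div, h1.2, mul_div_cancel_left₀ _ h1.1]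

end Pool.Agent.Helper36.QS
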